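import Pool.Agent.MVS.Stmts
import Pool.Agent.Helper36_RF.Chr
import Pool.Agent.Helper5_RF.Cyl
import Pool.Agent.Helper13_RF.FlowV

/-! MVS, row EXA (helper25): cut-off geodesic flow on `[0,1]`. -/

noncomputable section

open scoped ContDiff Topology RealInnerProductSpace
open Set MeasureTheory

namespace Pool.Agent.MVS.H25

open Pool.Agent.RF Pool.Agent.RF.H5 Pool.Agent.RF.H13

variable {G : E5 → Bil E5}

theorem geoA (hG : IsCyl G) {x : E5} (hx : x ∈ Om (Fin 5)) (v : E5) :
    fderiv ℝ G x v v v = 2 * G x (chris G x v v) v := by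
  have h := hG.metric.chris_spec hx v v v
  rw [h]
  ring

theorem geoB (hG : IsCyl G) {x : E5} (hx : x ∈ Om (Fin 5)) (v : E5) :
    fderiv ℝ G x v x v + G x v v - G x x (chris G x v v) = 0 := by
  have h := hG.metric.chris_spec hx v v x
  have h1 := cyl_euler hG hx v v
  have h2 := hG.metric.fderiv_symm hx v x v
  have h3 := hG.metric.symm x hx x (chris G x v v)
  rw [h3, h, h1, h2]
  ring

theorem curve (hG : IsCyl G) {x v : ℝ → E5} {I : Set ℝ} {t a : ℝ} (hxt : x t ∈ Om (Fin 5))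
    (hx : HasDerivWithinAt x (a • v t) I t)
    (hv : HasDerivWithinAt v (a • (-chris G (x t) (v t) (v t))) I t) :
    HasDerivWithinAt (fun s => G (x s) (v s) (v s)) 0 I t ∧
      HasDerivWithinAt (fun s => G (x s) (x s) (v s)) 0 I t ∧
      HasDerivWithinAt (fun s => Real.log ‖x s‖) (a * G (x t) (x t) (v t)) I t := by
  have hGd : HasDerivWithinAt (fun s => G (x s)) (fderiv ℝ G (x t) (a • v t)) I t := by
    have h := (cyl_diffAt hG hxt).hasFDerivAt
    exact HasFDerivAt.comp_hasDerivWithinAt (l := G) (f := x) t h hx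
  have h0 : ‖x t‖ ≠ 0 := norm_ne_zero_iff.2 hxt
  refine ⟨?_, ?_, ?_⟩
  · have h := (hGd.clm_apply hv).clm_apply hv
    have e : fderiv ℝ G (x t) (a • v t) (v t) (v t)
        + G (x t) (a • (-chris G (x t) (v t) (v t))) (v t)
        + G (x t) (v t) (a • (-chris G (x t) (v t) (v t))) = 0 := by
      have e1 := geoA hG hxt (v t)
      have e2 := hG.metric.symm (x t) hxt (v t) (chris G (x t) (v t) (v t))
      simp only [map_smul, map_neg, _root_.smul_apply, _root_.neg_apply, smul_eq_mul]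
      rw [e1, e2]
      ring
    rw [← e]
    exact h
  · have h := (hGd.clm_apply hx).clm_apply hv
    have e : fderiv ℝ G (x t) (a • v t) (x t) (v t) + G (x t) (a • v t) (v t)
        + G (x t) (x t) (a • (-chris G (x t) (v t) (v t))) = 0 := by
      have e1 := geoB hG hxt (v t)
      simp only [map_smul, map_neg, _root_.smul_apply, smul_eq_mul]
      linear_combination a * e1
    rw [← e]
    exact h
  · have h1 := hx.norm_sq
    have h2 := (h1.log (pow_ne_zero 2 h0)).const_mul (1 / 2 : ℝ)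
    have e : (fun s => (1 / 2 : ℝ) * Real.log (‖x s‖ ^ 2)) = fun s => Real.log ‖x s‖ := by
      funext s
      rw [Real.log_pow]
      push_cast
      ring
    rw [e] at h2
    refine h2.congr_deriv ?_
    rw [hG.radial (x t) hxt (v t), inner_smul_right]
    field_simp

theorem cs (hG : IsCyl G) {x : E5} (hx : x ∈ Om (Fin 5)) (v : E5) :
    (G x x v) ^ 2 ≤ G x v v := by
  have h0 : ‖x‖ ≠ 0 := norm_ne_zero_iff.2 hx
  have h1 : G x x x = 1 := by
    rw [hG.radial x hx x, real_inner_self_eq_norm_sq]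
    field_simp
  have h2 := hG.metric.symm x hx v x
  by_cases h : v - (G x x v) • x = 0
  · have hv : v = (G x x v) • x := sub_eq_zero.1 h
    have e : G x v v = (G x x v) * (G x x v) * G x x x := by
      conv_lhs => rw [hv]
      simp only [map_smul, _root_.smul_apply, smul_eq_mul]
      ring
    rw [e, h1]
    nlinarith
  · have h3 := hG.metric.pos x hx _ h
    simp only [map_sub, map_smul, _root_.sub_apply, _root_.smul_apply, smul_eq_mul] at h3
    rw [h1, h2] at h3
    nlinarith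

/-- the compact set of the continuity argument -/
def KK (G : E5 → Bil E5) (C : ℝ) : Set (E5 × E5) :=
  {z | Real.exp (-(2 * C)) ≤ ‖z.1‖ ∧ ‖z.1‖ ≤ Real.exp (2 * C) ∧ G z.1 z.2 z.2 ≤ C ^ 2}

theorem contE (hG : IsCyl G) :
    ContinuousOn (fun z : E5 × E5 => G z.1 z.2 z.2) (Om (Fin 5) ×ˢ univ) := by
  have h : ContinuousOn (fun z : E5 × E5 => G z.1) (Om (Fin 5) ×ˢ univ) :=
    hG.metric.smooth.continuousOn.comp continuousOn_fst (fun q hq => hq.1)
  exact (h.clm_apply continuousOn_snd).clm_apply continuousOn_snd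

theorem kk_closed (hG : IsCyl G) (C : ℝ) : IsClosed (KK G C) := by
  have hA : IsClosed {z : E5 × E5 | Real.exp (-(2 * C)) ≤ ‖z.1‖ ∧ ‖z.1‖ ≤ Real.exp (2 * C)} :=
    (isClosed_le continuous_const continuous_fst.norm).inter
      (isClosed_le continuous_fst.norm continuous_const)
  have hsub : {z : E5 × E5 | Real.exp (-(2 * C)) ≤ ‖z.1‖ ∧ ‖z.1‖ ≤ Real.exp (2 * C)} ⊆
      Om (Fin 5) ×ˢ univ := by
    intro z hz
    refine ⟨?_, trivial⟩
    have : 0 < ‖z.1‖ := lt_of_lt_of_le (Real.exp_pos _) hz.1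
    exact norm_pos_iff.1 this
  have h := ((contE hG).mono hsub).preimage_isClosed_of_isClosed hA (isClosed_Iic (a := C ^ 2))
  refine (Iff.of_eq (congrArg IsClosed ?_)).1 h
  ext z
  constructor
  · rintro ⟨⟨h1, h2⟩, h3⟩
    exact ⟨h1, h2, h3⟩
  · rintro ⟨h1, h2, h3⟩
    exact ⟨⟨h1, h2⟩, h3⟩

theorem kk_compact (hG : IsCyl G) (C : ℝ) : IsCompact (KK G C) := by
  -- lower bound for `G` on the annulus
  let A : Set E5 := {x | Real.exp (-(2 * C)) ≤ ‖x‖ ∧ ‖x‖ ≤ Real.exp (2 * C)}
  have hAc : IsCompact A := by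
    refine Metric.isCompact_of_isClosed_isBounded ?_ ?_
    · exact (isClosed_le continuous_const continuous_norm).inter
        (isClosed_le continuous_norm continuous_const)
    · refine (Metric.isBounded_closedBall (x := (0 : E5)) (r := Real.exp (2 * C))).subset ?_
      intro x hx
      simpa using hx.2
  have hAO : ∀ x ∈ A, x ∈ Om (Fin 5) := fun x hx => by
    have : 0 < ‖x‖ := lt_of_lt_of_le (Real.exp_pos _) hx.1
    exact norm_pos_iff.1 this
  have hS : IsCompact (A ×ˢ Metric.sphere (0 : E5) 1) := hAc.prod (isCompact_sphere 0 1)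
  have hm : ∃ m : ℝ, 0 < m ∧ ∀ x ∈ A, ∀ v : E5, m * ‖v‖ ^ 2 ≤ G x v v := by
    by_cases hne : (A ×ˢ Metric.sphere (0 : E5) 1).Nonempty
    · obtain ⟨q, hq, hmin⟩ := hS.exists_isMinOn hne
        ((contE hG).mono (fun z hz => ⟨hAO _ hz.1, trivial⟩))
      have hqv : q.2 ≠ 0 := by
        have := hq.2
        intro h0
        rw [h0] at this
        simp at this
      refine ⟨G q.1 q.2 q.2, hG.metric.pos _ (hAO _ hq.1) _ hqv, ?_⟩
      intro x hx v
      by_cases hv : v = 0
      · simp [hv]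
      · have hn : ‖v‖ ≠ 0 := norm_ne_zero_iff.2 hv
        have h1 : ((x, ‖v‖⁻¹ • v) : E5 × E5) ∈ A ×ˢ Metric.sphere (0 : E5) 1 := by
          refine ⟨hx, ?_⟩
          simp [norm_smul, hn]
        have h2 : G q.1 q.2 q.2 ≤ G x (‖v‖⁻¹ • v) (‖v‖⁻¹ • v) := hmin h1
        simp only [map_smul, _root_.smul_apply, smul_eq_mul] at h2
        have h3 : (0 : ℝ) ≤ ‖v‖ ^ 2 := by positivity
        calc G q.1 q.2 q.2 * ‖v‖ ^ 2 ≤ (‖v‖⁻¹ * (‖v‖⁻¹ * G x v v)) * ‖v‖ ^ 2 :=
              mul_le_mul_of_nonneg_right h2 h3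
          _ = G x v v := by field_simp
    · refine ⟨1, one_pos, ?_⟩
      intro x hx v
      exfalso
      apply hne
      refine ⟨(x, EuclideanSpace.single 0 1), hx, ?_⟩
      simp
  obtain ⟨m, hm0, hm⟩ := hm
  refine Metric.isCompact_of_isClosed_isBounded (kk_closed hG C) ?_
  have hb : Bornology.IsBounded (Metric.closedBall (0 : E5) (Real.exp (2 * C)) ×ˢ
      Metric.closedBall (0 : E5) (Real.sqrt (C ^ 2 / m))) :=
    Metric.isBounded_closedBall.prod Metric.isBounded_closedBall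
  refine hb.subset ?_
  intro z hz
  refine ⟨by simpa using hz.2.1, ?_⟩
  have h1 := hm z.1 ⟨hz.1, hz.2.1⟩ z.2
  have h2 : ‖z.2‖ ^ 2 ≤ C ^ 2 / m := by
    rw [le_div_iff₀ hm0]
    linarith [hz.2.2]
  simp only [Metric.mem_closedBall, dist_zero_right]
  exact Real.le_sqrt_of_sq_le h2

theorem kk_om {C : ℝ} {z : E5 × E5} (hz : z ∈ KK G C) : z.1 ∈ Om (Fin 5) := by
  have : 0 < ‖z.1‖ := lt_of_lt_of_le (Real.exp_pos _) hz.1
  exact norm_pos_iff.1 this

theorem omS_open : IsOpen (Om (Fin 5) ×ˢ (univ : Set E5)) := om_isOpen.prod isOpen_univ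

theorem bump (hG : IsCyl G) (C : ℝ) : ∃ χ : E5 × E5 → ℝ, ContDiff ℝ ∞ χ ∧ HasCompactSupport χ ∧
    tsupport χ ⊆ Om (Fin 5) ×ˢ univ ∧ ∀ z ∈ KK G C, χ z = 1 := by
  obtain ⟨L, hL, hKL, hLS⟩ := exists_compact_between (kk_compact hG C) omS_open
    (fun z hz => ⟨kk_om hz, trivial⟩)
  obtain ⟨f, hf0, hf1, -⟩ := exists_contMDiffMap_zero_one_of_isClosed (n := (⊤ : ℕ∞))
    (modelWithCornersSelf ℝ (E5 × E5)) (s := (interior L)ᶜ) (t := KK G C)
    isOpen_interior.isClosed_compl (kk_closed hG C)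
    (by rw [Set.disjoint_left]; intro z hz hz'; exact hz (hKL hz'))
  have hsupp : tsupport (f : E5 × E5 → ℝ) ⊆ L := by
    refine closure_minimal ?_ hL.isClosed
    intro z hz
    by_contra hzL
    exact hz (hf0 (fun h => hzL (interior_subset h)))
  refine ⟨f, f.contMDiff.contDiff, ?_, hsupp.trans hLS, fun z hz => hf1 hz⟩
  exact HasCompactSupport.of_support_subset_isCompact hL ((subset_tsupport _).trans hsupp)

/-- the geodesic vector field -/
def VF (G : E5 → Bil E5) (z : E5 × E5) : E5 × E5 := (z.2, -chris G z.1 z.2 z.2)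

theorem vf_smooth (hG : IsCyl G) : ContDiffOn ℝ ∞ (VF G) (Om (Fin 5) ×ˢ univ) := by
  have h1 : ContDiffOn ℝ ∞ (fun z : E5 × E5 => chris G z.1 z.2 z.2) (Om (Fin 5) ×ˢ univ) := by
    have := hG.metric.contDiffOn_chris.comp (s := Om (Fin 5) ×ˢ (univ : Set E5))
      (f := fun z : E5 × E5 => (z.1, z.2, z.2))
      (contDiff_fst.prodMk (contDiff_snd.prodMk contDiff_snd)).contDiffOn
      (fun z hz => ⟨hz.1, trivial⟩)
    exact this
  exact contDiff_snd.contDiffOn.prodMk h1.neg

theorem vf1_smooth (hG : IsCyl G) {χ : E5 × E5 → ℝ} (hχ : ContDiff ℝ ∞ χ)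
    (hs : tsupport χ ⊆ Om (Fin 5) ×ˢ univ) : ContDiff ℝ ∞ (fun z => χ z • VF G z) := by
  rw [contDiff_iff_contDiffAt]
  intro z
  by_cases hz : z ∈ tsupport χ
  · have h := (vf_smooth hG) z (hs hz)
    exact hχ.contDiffAt.smul (h.contDiffAt (omS_open.mem_nhds (hs hz)))
  · have h : (fun z => χ z • VF G z) =ᶠ[𝓝 z] fun _ => 0 := by
      filter_upwards [(isClosed_tsupport χ).isOpen_compl.mem_nhds hz] with y hy
      rw [image_eq_zero_of_notMem_tsupport hy, zero_smul]
    exact contDiffAt_const.congr_of_eventuallyEq h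

theorem exa : ExaStatement := by
  intro G hG C hC
  obtain ⟨χ, hχ, hχc, hχs, hχ1⟩ := bump hG C
  have hV := vf1_smooth hG hχ hχs
  have hVc : HasCompactSupport (fun z => χ z • VF G z) := hχc.smul_right
  obtain ⟨K, hK⟩ := ContDiff.lipschitzWith_of_hasCompactSupport hVc hV (by simp)
  obtain ⟨L, hL⟩ := hV.continuous.bounded_above_of_compact_support hVc
  obtain ⟨ψ, hψ, hψ0, hψd⟩ := exists_flow (Z := E5 × E5) (T := 1) one_pos
    (V := fun _ z => χ z • VF G z) (hV.comp contDiff_snd).contDiffOn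
    (L := L.toNNReal) (K := K)
    (fun t _ x => (hL x).trans (Real.le_coe_toNNReal L)) (fun t _ => hK)
  refine ⟨ψ, hψ, ?_⟩
  intro z hz1 hz2 hz3
  have hz0 : z.1 ∈ Om (Fin 5) := norm_pos_iff.1 ((Real.exp_pos _).trans hz1)
  refine ⟨hψ0 z, ?_⟩
  have hcont : ContinuousOn (fun s => ψ s z) (Icc 0 1) := fun t ht =>
    (hψd t ht z).continuousWithinAt
  -- the core: `ψ t z ∈ KK` for all `t`
  have hcore : Icc (0 : ℝ) 1 ⊆ {t | ∀ s ∈ Icc 0 t, ψ s z ∈ KK G C} := by
    have hlogz : |Real.log ‖z.1‖| < C := by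
      rw [abs_lt]
      constructor
      · rw [← Real.log_exp (-C)]
        exact Real.log_lt_log (Real.exp_pos _) hz1
      · rw [← Real.log_exp C]
        exact Real.log_lt_log ((Real.exp_pos _).trans hz1) hz2
    have hs0 : |G z.1 z.1 z.2| < C := by
      have h1 := cs hG hz0 z.2
      exact abs_lt_of_sq_lt_sq (lt_of_le_of_lt h1 hz3) hC.le
    have hzK : z ∈ KK G C := by
      refine ⟨?_, ?_, hz3.le⟩
      · refine le_trans (Real.exp_le_exp.2 ?_) hz1.le
        linarith
      · refine le_trans hz2.le (Real.exp_le_exp.2 ?_)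
        linarith
    apply IsClosed.Icc_subset_of_forall_mem_nhdsWithin
    · -- closedness
      apply IsSeqClosed.isClosed
      intro u t hu hut
      have htI : t ∈ Icc (0 : ℝ) 1 := isClosed_Icc.mem_of_tendsto hut
        (Filter.Eventually.of_forall fun n => (hu n).2)
      refine ⟨?_, htI⟩
      intro s hs
      rcases lt_or_eq_of_le hs.2 with h | h
      · obtain ⟨n, hn⟩ := (hut.eventually (lt_mem_nhds h)).exists
        exact (hu n).1 s ⟨hs.1, hn.le⟩
      · rw [h]
        have h1 : Filter.Tendsto u Filter.atTop (𝓝[Icc 0 1] t) :=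
          tendsto_nhdsWithin_of_tendsto_nhds_of_eventually_within _ hut
            (Filter.Eventually.of_forall fun n => (hu n).2)
        have h2 := (hcont t htI).tendsto.comp h1
        exact (kk_closed hG C).mem_of_tendsto h2
          (Filter.Eventually.of_forall fun n => (hu n).1 (u n) ⟨(hu n).2.1, le_rfl⟩)
    · intro s hs
      have : s = 0 := le_antisymm hs.2 hs.1
      rw [this, hψ0]
      exact hzK
    · rintro t ⟨htB, ht0, ht1⟩
      have htB' : ∀ s ∈ Icc 0 t, ψ s z ∈ KK G C := htB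
      have hsub : Icc 0 t ⊆ Icc (0 : ℝ) 1 := Icc_subset_Icc le_rfl ht1.le
      have hd : ∀ s ∈ Icc 0 t,
          HasDerivWithinAt (fun s => G (ψ s z).1 (ψ s z).2 (ψ s z).2) 0 (Icc 0 t) s ∧
          HasDerivWithinAt (fun s => G (ψ s z).1 (ψ s z).1 (ψ s z).2) 0 (Icc 0 t) s ∧
          HasDerivWithinAt (fun s => Real.log ‖(ψ s z).1‖)
            (χ (ψ s z) * G (ψ s z).1 (ψ s z).1 (ψ s z).2) (Icc 0 t) s := by
        intro s hs
        have h1 := (hψd s (hsub hs) z).mono hsub
        have hx : HasDerivWithinAt (fun s => (ψ s z).1) (χ (ψ s z) • (ψ s z).2) (Icc 0 t) s := by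
          have h2 : HasFDerivAt (Prod.fst : E5 × E5 → E5) (ContinuousLinearMap.fst ℝ E5 E5)
            (ψ s z) := hasFDerivAt_fst
          exact HasFDerivAt.comp_hasDerivWithinAt (l := (Prod.fst : E5 × E5 → E5))
            (f := fun s => ψ s z) s h2 h1
        have hv : HasDerivWithinAt (fun s => (ψ s z).2)
            (χ (ψ s z) • (-chris G (ψ s z).1 (ψ s z).2 (ψ s z).2)) (Icc 0 t) s := by
          have h2 : HasFDerivAt (Prod.snd : E5 × E5 → E5) (ContinuousLinearMap.snd ℝ E5 E5)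
            (ψ s z) := hasFDerivAt_snd
          exact HasFDerivAt.comp_hasDerivWithinAt (l := (Prod.snd : E5 × E5 → E5))
            (f := fun s => ψ s z) s h2 h1
        exact curve hG (kk_om (htB' s hs)) hx hv
      have hEc : ∀ s ∈ Icc 0 t, G (ψ s z).1 (ψ s z).2 (ψ s z).2 = G z.1 z.2 z.2 := by
        intro s hs
        have h1 := (convex_Icc (0 : ℝ) t).norm_image_sub_le_of_norm_hasDerivWithin_le
          (C := 0) (fun u hu => (hd u hu).1) (fun u hu => by simp) (left_mem_Icc.2 ht0) hs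
        simp only [zero_mul, norm_le_zero_iff] at h1
        rw [hψ0] at h1
        exact sub_eq_zero.1 h1
      have hSc : ∀ s ∈ Icc 0 t, G (ψ s z).1 (ψ s z).1 (ψ s z).2 = G z.1 z.1 z.2 := by
        intro s hs
        have h1 := (convex_Icc (0 : ℝ) t).norm_image_sub_le_of_norm_hasDerivWithin_le
          (C := 0) (fun u hu => (hd u hu).2.1) (fun u hu => by simp) (left_mem_Icc.2 ht0) hs
        simp only [zero_mul, norm_le_zero_iff] at h1
        rw [hψ0] at h1
        exact sub_eq_zero.1 h1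
      have hlog : |Real.log ‖(ψ t z).1‖| < 2 * C := by
        have h1 := (convex_Icc (0 : ℝ) t).norm_image_sub_le_of_norm_hasDerivWithin_le
          (C := |G z.1 z.1 z.2|) (fun u hu => (hd u hu).2.2) (fun u hu => by
            rw [hSc u hu, hχ1 _ (htB' u hu), one_mul, Real.norm_eq_abs])
          (left_mem_Icc.2 ht0) (right_mem_Icc.2 ht0)
        simp only [hψ0, sub_zero, Real.norm_eq_abs] at h1
        rw [abs_of_nonneg ht0] at h1
        have h2 : |G z.1 z.1 z.2| * t ≤ |G z.1 z.1 z.2| :=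
          mul_le_of_le_one_right (abs_nonneg _) ht1.le
        have h3 := abs_sub_abs_le_abs_sub (Real.log ‖(ψ t z).1‖) (Real.log ‖z.1‖)
        linarith
      have htm : t ∈ Icc 0 t := right_mem_Icc.2 ht0
      have hom := kk_om (htB' t htm)
      have hpos : 0 < ‖(ψ t z).1‖ := norm_pos_iff.2 hom
      rw [abs_lt] at hlog
      -- a neighbourhood of `ψ t z` inside `KK`
      have hW : KK G C ∈ 𝓝 (ψ t z) := by
        have e1 : ∀ᶠ y : E5 × E5 in 𝓝 (ψ t z), Real.exp (-(2 * C)) < ‖y.1‖ := by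
          refine (continuous_fst.norm.continuousAt (x := ψ t z)).eventually_const_lt ?_
          change Real.exp (-(2 * C)) < ‖(ψ t z).1‖
          rw [← Real.exp_log hpos]
          exact Real.exp_lt_exp.2 (by linarith [hlog.1])
        have e2 : ∀ᶠ y : E5 × E5 in 𝓝 (ψ t z), ‖y.1‖ < Real.exp (2 * C) := by
          refine (continuous_fst.norm.continuousAt (x := ψ t z)).eventually_lt_const ?_
          change ‖(ψ t z).1‖ < Real.exp (2 * C)
          rw [← Real.exp_log hpos]
          exact Real.exp_lt_exp.2 (by linarith [hlog.2])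
        have e3 : ∀ᶠ y : E5 × E5 in 𝓝 (ψ t z), G y.1 y.2 y.2 < C ^ 2 := by
          have hc : ContinuousAt (fun y : E5 × E5 => G y.1 y.2 y.2) (ψ t z) :=
            (contE hG).continuousAt (omS_open.mem_nhds ⟨hom, trivial⟩)
          refine hc.eventually_lt_const ?_
          change G (ψ t z).1 (ψ t z).2 (ψ t z).2 < C ^ 2
          rw [hEc t htm]
          exact hz3
        filter_upwards [e1, e2, e3] with y h1 h2 h3
        exact ⟨h1.le, h2.le, h3.le⟩
      have hev : ∀ᶠ s in 𝓝[Icc 0 1] t, ψ s z ∈ KK G C :=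
        (hcont t (hsub htm)).tendsto.eventually hW
      obtain ⟨ε, hε, hεs⟩ := Metric.mem_nhdsWithin_iff.1 hev
      have hnb : Ioo t (min 1 (t + ε)) ∈ 𝓝[>] t :=
        Ioo_mem_nhdsGT (lt_min ht1 (by linarith))
      filter_upwards [hnb] with t' ht' s hs
      rcases le_or_gt s t with h | h
      · exact htB' s ⟨hs.1, h⟩
      · have h1 : t' < 1 := lt_of_lt_of_le ht'.2 (min_le_left _ _)
        have h2 : t' < t + ε := lt_of_lt_of_le ht'.2 (min_le_right _ _)
        apply hεs
        refine ⟨?_, hs.1, (hs.2.trans h1.le)⟩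
        rw [Metric.mem_ball, Real.dist_eq, abs_of_pos (by linarith)]
        linarith [hs.2]
  intro t ht
  have hk : ψ t z ∈ KK G C := hcore ht t ⟨ht.1, le_rfl⟩
  refine ⟨kk_om hk, ?_⟩
  have h := hψd t ht z
  rw [hχ1 _ hk, one_smul] at h
  exact h

end Pool.Agent.MVS.H25
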